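import Pool.Agent.Helper60.PlzA.Goals

/-!
# Project PLA: packet STARV
-/

set_option autoImplicit false

namespace Pool.Agent.Helper38.PlzA

open Finset Pool.Agent.Helper93.Plz Pool.Agent.Helper60.PlzA

open scoped Classical

theorem sum_cons {S : Type} [Fintype S] (n : ℕ) (F : (Fin (n + 1) → S) → ℝ) :
    ∑ g : Fin (n + 1) → S, F g = ∑ a : S, ∑ g : Fin n → S, F (Fin.cons a g) := by
  rw [← (Fin.consEquiv (fun _ : Fin (n + 1) => S)).sum_comp, Fintype.sum_prod_type]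
  rfl

theorem sum_six {S : Type} [Fintype S] (F : (Fin 6 → S) → ℝ) :
    ∑ g : Fin 6 → S, F g =
      ∑ a : S, ∑ b : S, ∑ c : S, ∑ d : S, ∑ e : S, ∑ f : S, F ![a, b, c, d, e, f] := by
  rw [sum_cons]
  refine sum_congr rfl fun a _ => ?_
  rw [sum_cons]
  refine sum_congr rfl fun b _ => ?_
  rw [sum_cons]
  refine sum_congr rfl fun c _ => ?_
  rw [sum_cons]
  refine sum_congr rfl fun d _ => ?_
  rw [sum_cons]
  refine sum_congr rfl fun e _ => ?_
  rw [sum_cons]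
  refine sum_congr rfl fun f _ => ?_
  rw [Fintype.sum_unique]
  congr 1

/-- The sum of `Psi` in terms of the degrees. -/
theorem sum_Psi {S : Type} [Fintype S] (r : S → S → Prop) (n : S → ℝ)
    (hn : ∀ a, ∑ b, Ind r a b = n a) :
    ∑ g : Fin 6 → S, Psi r g =
      1 / 4 * (Fintype.card S : ℝ) ^ 6 - (Fintype.card S : ℝ) ^ 4 * ∑ a, n a -
        1 / 4 * ((Fintype.card S : ℝ) ^ 2 * ∑ a, n a ^ 3) + (∑ a, n a) * ∑ a, n a ^ 3 +
        (Fintype.card S : ℝ) ^ 3 * ∑ a, n a ^ 2 - ∑ a, n a ^ 5 := by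
  rw [sum_six]
  have e : ∀ a b c d e f : S, Psi r ![a, b, c, d, e, f] =
      1 / 4 - Ind r a b - 1 / 4 * (Ind r a b * Ind r a c * Ind r a d) +
      Ind r e f * (Ind r a b * Ind r a c * Ind r a d) + Ind r a b * Ind r a c -
      Ind r a b * Ind r a c * Ind r a d * Ind r a e * Ind r a f := fun a b c d e f => rfl
  simp only [e, sum_add_distrib, sum_sub_distrib, ← mul_sum, ← sum_mul, hn, sum_const, card_univ,
    nsmul_eq_mul]
  have e3 : ∀ a, n a ^ 3 = n a * n a * n a := fun a => by ring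
  have e2 : ∀ a, n a ^ 2 = n a * n a := fun a => by ring
  have e5 : ∀ a, n a ^ 5 = n a * n a * n a * n a * n a := fun a => by ring
  simp only [e3, e2, e5]
  have h3 : ∑ i, n i * n i * ((Fintype.card S : ℝ) * ((Fintype.card S : ℝ) * n i)) =
      (Fintype.card S : ℝ) ^ 2 * ∑ i, n i * n i * n i := by
    rw [mul_sum]
    exact sum_congr rfl fun i _ => by ring
  have h2 : ∑ i, n i * ((Fintype.card S : ℝ) * ((Fintype.card S : ℝ) *
      ((Fintype.card S : ℝ) * n i))) = (Fintype.card S : ℝ) ^ 3 * ∑ i, n i * n i := by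
    rw [mul_sum]
    exact sum_congr rfl fun i _ => by ring
  rw [h3, h2]
  ring

theorem P3_le {S W : Type} [Fintype S] (r : S → S → Prop) (A : Finset W) (f : S × S × S → W)
    (hf : ∀ q : S × S × S, r q.1 q.2.1 → r q.2.1 q.2.2 → q.1 ≠ q.2.2 → ¬ r q.1 q.2.2 → f q ∈ A)
    (hi : ∀ q q' : S × S × S, r q.1 q.2.1 → r q.2.1 q.2.2 → r q'.1 q'.2.1 → r q'.2.1 q'.2.2 →
      f q = f q' → q = q') : P3 r ≤ A.card := by
  unfold P3
  refine card_le_card_of_injOn f ?_ ?_
  · intro q hq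
    obtain ⟨q1, q2, q3, q4⟩ := (mem_filter.mp hq).2
    exact hf q q1 q2 q3 q4
  · intro q hq q' hq' heq
    obtain ⟨q1, q2, q3, q4⟩ := (mem_filter.mp hq).2
    obtain ⟨q1', q2', q3', q4'⟩ := (mem_filter.mp hq').2
    exact hi q q' q1 q2 q1' q2' heq

/-- The points: the neighbours of `v` and `t - d_v` additional points. -/
abbrev SS {V : Type} [Fintype V] (G : SimpleGraph V) (t : ℕ) (v : V) : Type :=
  {y // y ∈ nbs G v} ⊕ Fin (t - dgr G v)

/-- The adjacency of the neighbours. -/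
def rr {V : Type} [Fintype V] (G : SimpleGraph V) (t : ℕ) (v : V) : SS G t v → SS G t v → Prop
  | Sum.inl a, Sum.inl b => G.Adj a.1 b.1
  | _, _ => False

theorem starv (h1 : S_STARF) : S_STARV := by
  intro V _ G t v ht hd L hL
  have hcard : Fintype.card (SS G t v) = t := by
    rw [Fintype.card_sum, Fintype.card_coe, Fintype.card_fin]
    unfold dgr at *
    omega
  have hne : Nonempty (SS G t v) := by
    rw [← Fintype.card_pos_iff, hcard]
    exact ht
  have hsy : ∀ a b, rr G t v a b → rr G t v b a := by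
    rintro (a | a) (b | b) h
    · exact SimpleGraph.Adj.symm h
    · exact h
    · exact h
    · exact h
  have hir : ∀ a, ¬ rr G t v a a := by
    rintro (a | a) h
    · exact G.irrefl h
    · exact h
  have h := h1 (SS G t v) inferInstance hne (rr G t v) hsy hir L hL
  -- the degrees
  set n : SS G t v → ℝ := Sum.elim (fun y => (cod G y.1 v : ℝ)) (fun _ => 0) with hn
  have hdeg : ∀ a, ∑ b, Ind (rr G t v) a b = n a := by
    rintro (a | a)
    · rw [Fintype.sum_sum_type]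
      have e1 : ∀ b : Fin (t - dgr G v), Ind (rr G t v) (Sum.inl a) (Sum.inr b) = 0 := fun b => by
        unfold Ind
        rw [if_neg]
        exact fun h => h
      have e2 : ∀ b : {y // y ∈ nbs G v}, Ind (rr G t v) (Sum.inl a) (Sum.inl b) =
          if G.Adj a.1 b.1 then 1 else 0 := fun b => rfl
      simp only [e1, e2, sum_const_zero, add_zero]
      rw [Finset.sum_coe_sort (nbs G v) (fun w => if G.Adj a.1 w then (1 : ℝ) else 0)]
      rw [← sum_filter, sum_const, nsmul_eq_mul, mul_one]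
      show _ = (cod G a.1 v : ℝ)
      unfold cod cmn nbs
      congr 2
      ext w
      simp only [mem_filter, mem_univ, true_and]
      exact and_comm
    · have e1 : ∀ b, Ind (rr G t v) (Sum.inr a) b = 0 := fun b => by
        unfold Ind
        rw [if_neg]
        exact fun h => h
      simp only [e1, sum_const_zero]
      rfl
  rw [sum_Psi (rr G t v) n hdeg, hcard] at h
  have hs : ∀ k : ℕ, k ≠ 0 → ∑ a, n a ^ k = ∑ z ∈ nbs G v, (cod G z v : ℝ) ^ k := by
    intro k hk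
    rw [Fintype.sum_sum_type]
    have e1 : ∀ b : Fin (t - dgr G v), n (Sum.inr b) ^ k = 0 := fun b => by
      show (0 : ℝ) ^ k = 0
      exact zero_pow hk
    simp only [e1, sum_const_zero, add_zero]
    exact Finset.sum_coe_sort (nbs G v) (fun w => (cod G w v : ℝ) ^ k)
  have hs1 : ∑ a, n a = (rho2 G v : ℝ) := by
    have := hs 1 one_ne_zero
    simp only [pow_one] at this
    rw [this]
    unfold rho2
    rw [Nat.cast_sum]
    refine sum_congr rfl fun z _ => ?_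
    congr 1
    unfold cod cmn
    congr 1
    ext w
    simp only [mem_filter, mem_univ, true_and]
    exact and_comm
  rw [hs1, hs 2 (by norm_num), hs 3 (by norm_num), hs 5 (by norm_num)] at h
  -- paths
  have hP : P3 (rr G t v) ≤ (univ.filter fun q : V × V × V => G.Adj v q.1 ∧ G.Adj v q.2.1 ∧
        G.Adj v q.2.2 ∧ G.Adj q.1 q.2.1 ∧ G.Adj q.2.1 q.2.2 ∧ q.1 ≠ q.2.2 ∧
        ¬ G.Adj q.1 q.2.2).card := by
    have hmem : ∀ a : {y // y ∈ nbs G v}, G.Adj v a.1 := fun a => by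
      have := a.2
      unfold nbs at this
      exact (mem_filter.mp this).2
    set j : SS G t v → V := Sum.elim (fun y => y.1) (fun _ => v) with hj
    refine P3_le (rr G t v) _ (fun q => (j q.1, j q.2.1, j q.2.2)) ?_ ?_
    · rintro ⟨a | a, b | b, c | c⟩ q1 q2 q3 q4
      · refine mem_filter.mpr ⟨mem_univ _, hmem a, hmem b, hmem c, q1, q2, ?_, q4⟩
        intro h
        exact q3 (congrArg Sum.inl (Subtype.ext h))
      all_goals
        first
          | exact False.elim q1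
          | exact False.elim q2
    · rintro ⟨a, b, c⟩ ⟨a', b', c'⟩ q1 q2 q1' q2' heq
      have key : ∀ x y : SS G t v, (∃ z, rr G t v x z ∨ rr G t v z x) →
          (∃ z, rr G t v y z ∨ rr G t v z y) → j x = j y → x = y := by
        rintro (x | x) (y | y) hx hy hxy
        · exact congrArg Sum.inl (Subtype.ext hxy)
        · exfalso
          obtain ⟨z, hz⟩ := hy
          rcases z with z | z <;> exact hz.elim (fun h => h) (fun h => h)
        · exfalso
          obtain ⟨z, hz⟩ := hx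
          rcases z with z | z <;> exact hz.elim (fun h => h) (fun h => h)
        · exfalso
          obtain ⟨z, hz⟩ := hx
          rcases z with z | z <;> exact hz.elim (fun h => h) (fun h => h)
      simp only [Prod.mk.injEq] at heq ⊢
      obtain ⟨h1, h2, h3⟩ := heq
      exact ⟨key a a' ⟨b, Or.inl q1⟩ ⟨b', Or.inl q1'⟩ h1,
        key b b' ⟨a, Or.inr q1⟩ ⟨a', Or.inr q1'⟩ h2,
        key c c' ⟨b, Or.inr q2⟩ ⟨b', Or.inr q2'⟩ h3⟩
  -- arithmetic
  have ht0 : (0 : ℝ) < t := by exact_mod_cast ht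
  have hd' : (dgr G v : ℝ) ≤ t := by exact_mod_cast hd
  have hP' : (P3 (rr G t v) : ℝ) ≤ ((univ.filter fun q : V × V × V => G.Adj v q.1 ∧ G.Adj v q.2.1 ∧
        G.Adj v q.2.2 ∧ G.Adj q.1 q.2.1 ∧ G.Adj q.2.1 q.2.2 ∧ q.1 ≠ q.2.2 ∧
        ¬ G.Adj q.1 q.2.2).card : ℝ) := by exact_mod_cast hP
  have hL0 : (0 : ℝ) < L := by exact_mod_cast hL
  have hrho : (0 : ℝ) ≤ rho2 G v := Nat.cast_nonneg _
  have e : (t : ℝ) ^ 3 * ∑ z ∈ nbs G v, (1 - ((cod G z v : ℝ) / t) ^ 3) *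
        (1 / 4 * (t : ℝ) ^ 2 - rho2 G v + (cod G z v : ℝ) ^ 2) =
      (t : ℝ) ^ 3 * dgr G v * (1 / 4 * (t : ℝ) ^ 2 - rho2 G v) +
        (t : ℝ) ^ 3 * ∑ z ∈ nbs G v, (cod G z v : ℝ) ^ 2 -
        (1 / 4 * (t : ℝ) ^ 2 - rho2 G v) * ∑ z ∈ nbs G v, (cod G z v : ℝ) ^ 3 -
        ∑ z ∈ nbs G v, (cod G z v : ℝ) ^ 5 := by
    have e1 : (t : ℝ) ^ 3 * dgr G v * (1 / 4 * (t : ℝ) ^ 2 - rho2 G v) =
        ∑ z ∈ nbs G v, (t : ℝ) ^ 3 * (1 / 4 * (t : ℝ) ^ 2 - rho2 G v) := by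
      rw [sum_const, nsmul_eq_mul]
      unfold dgr
      ring
    rw [e1, mul_sum, mul_sum, mul_sum, ← sum_add_distrib, ← sum_sub_distrib, ← sum_sub_distrib]
    refine sum_congr rfl fun z _ => ?_
    field_simp
    ring
  generalize ∑ z ∈ nbs G v, (1 - ((cod G z v : ℝ) / t) ^ 3) *
        (1 / 4 * (t : ℝ) ^ 2 - rho2 G v + (cod G z v : ℝ) ^ 2) = X at *
  generalize ∑ z ∈ nbs G v, (cod G z v : ℝ) ^ 2 = s2 at *
  generalize ∑ z ∈ nbs G v, (cod G z v : ℝ) ^ 3 = s3 at *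
  generalize ∑ z ∈ nbs G v, (cod G z v : ℝ) ^ 5 = s5 at *
  generalize ((univ.filter fun q : V × V × V => G.Adj v q.1 ∧ G.Adj v q.2.1 ∧
        G.Adj v q.2.2 ∧ G.Adj q.1 q.2.1 ∧ G.Adj q.2.1 q.2.2 ∧ q.1 ≠ q.2.2 ∧
        ¬ G.Adj q.1 q.2.2).card : ℝ) = p at *
  generalize (P3 (rr G t v) : ℝ) = p' at *
  have h3 : (t : ℝ) ^ 6 * ((L : ℝ) ^ 3 * (p' / (t : ℝ) ^ 3 + 1 / t) + 30 / L) =
      (t : ℝ) ^ 3 * ((L : ℝ) ^ 3 * (p' + (t : ℝ) ^ 2) + 30 / L * (t : ℝ) ^ 3) := by
    field_simp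
  have h4 : (t : ℝ) ^ 3 * (-((L : ℝ) ^ 3 * (p + (t : ℝ) ^ 2) + 30 / L * (t : ℝ) ^ 3 +
      ((t : ℝ) - dgr G v) * (t : ℝ) ^ 2 / 4)) ≤ (t : ℝ) ^ 3 * X := by
    rw [h3] at h
    rw [e]
    have h5 : (t : ℝ) ^ 3 * ((L : ℝ) ^ 3 * p') ≤ (t : ℝ) ^ 3 * ((L : ℝ) ^ 3 * p) := by
      have : (0 : ℝ) ≤ (L : ℝ) ^ 3 := by positivity
      exact mul_le_mul_of_nonneg_left (mul_le_mul_of_nonneg_left hP' this) (by positivity)
    have h6 : 0 ≤ (t : ℝ) ^ 3 * (((t : ℝ) - dgr G v) * rho2 G v) := by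
      have : 0 ≤ (t : ℝ) - dgr G v := by linarith
      positivity
    nlinarith
  exact le_of_mul_le_mul_left h4 (by positivity)

end Pool.Agent.Helper38.PlzA
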